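import Pool.Agent.X226.PdE

/-!
# A determinant of events built from random tuples of subsets (MP_02f487_co)

The identity of Q1 holds for all `k`, `r`, `p` and `D`. The cycle `[k]`, `k = n + 1`, is `Fin (n + 1)`:
the element `m` of `[k]` is the index `m - 1`, so `k` is `Fin.last n` and `[k - 1]` is `Fin n`
(embedded by `Fin.castSucc`). The subsets `S_1, ..., S_r` are `S 0, ..., S (r - 1)`.
-/

set_option autoImplicit false

namespace Pool.Agent.Results.MP_02f487_co.EventDeterminant

open Finset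
open Pool.Agent.X226.Pd (arc)
open scoped Classical

variable {n r : ℕ}

noncomputable section

/-- `S_{p,r}`: the `r`-tuples of subsets of `[k]` in which each `i` lies in exactly `p i` of them. -/
def Tuples (r : ℕ) (p : Fin (n + 1) → ℕ) : Finset (Fin r → Finset (Fin (n + 1))) :=
  univ.filter fun S => ∀ i, (univ.filter fun t => i ∈ S t).card = p i

/-- `M_{p,r}`: the tuples in `S_{p,r}` with no `S_t` equal to `[k]`. -/
def Proper (r : ℕ) (p : Fin (n + 1) → ℕ) : Finset (Fin r → Finset (Fin (n + 1))) :=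
  (Tuples r p).filter fun S => ∀ t, S t ≠ univ

/-- Pairs `(S, f)`. -/
abbrev Pair (n r : ℕ) := (Fin r → Finset (Fin (n + 1))) × (Fin n → Fin r)

/-- `Ω`: the pairs `(S, f)` with `S` in `S_{p,r}` and `f : [k-1] → [r]` a surjection. -/
def Om (r : ℕ) (p : Fin (n + 1) → ℕ) : Finset (Pair n r) :=
  univ.filter fun ω => ω.1 ∈ Tuples r p ∧ Function.Surjective ω.2

/-- The uniform probability on `Ω`. -/
def Pr (p : Fin (n + 1) → ℕ) (E : Set (Pair n r)) : ℝ :=
  ((Om r p).filter fun ω => ω ∈ E).card / (Om r p).card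

/-- The `Pr`-determinant of a matrix of events. -/
def Pdet (p : Fin (n + 1) → ℕ) (E : Fin (n + 1) → Fin (n + 1) → Set (Pair n r)) : ℝ :=
  ∑ π : Equiv.Perm (Fin (n + 1)), ((Equiv.Perm.sign π : ℤ) : ℝ) * Pr p (⋂ i, E i (π i))

/-- The event `I^t_{i,j}`: `]i, j] ⊆ S_t`, for a random index `t`. -/
def evI (t : Pair n r → Fin r) (i j : Fin (n + 1)) : Set (Pair n r) :=
  {ω | arc i j ⊆ ω.1 (t ω)}

/-- The event `J^t_{i,j}`: it is `I^t_{i,j}` for `i ≠ j`, and `S_t = [k]` for `i = j`. -/
def evJ (t : Pair n r → Fin r) (i j : Fin (n + 1)) : Set (Pair n r) :=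
  if i = j then {ω | ω.1 (t ω) = univ} else evI t i j

/-- The matrix of events `M^D`: row `i < k` is `J^{f(i)}_{i-1,j}` for `i` in `D` (indices mod `k`)
and `I^{f(i)}_{i,j}` otherwise; row `k` consists of `Ω`. -/
def MD (D : Finset (Fin n)) : Fin (n + 1) → Fin (n + 1) → Set (Pair n r) := fun i j =>
  Fin.lastCases (motive := fun _ => Set (Pair n r)) Set.univ
    (fun i' => if i' ∈ D then evJ (fun ω => ω.2 i') (i'.castSucc - 1) j
      else evI (fun ω => ω.2 i') i'.castSucc j) i

open Pool.Agent.X226.Pd (NN dg fixed mem_arc cd det_rows)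

theorem J_iff (a j : Fin (n + 1)) (A : Finset (Fin (n + 1))) :
    (if a - 1 = j then A = univ else arc (a - 1) j ⊆ A) ↔ (a ∈ A ∧ arc a j ⊆ A) := by
  have hv : ((a - 1 : Fin (n + 1)) : ℕ) = if a.val = 0 then n else a.val - 1 := by
    rw [Fin.coe_sub_one]
    simp only [Fin.ext_iff, Fin.val_zero]
  have ha := a.isLt
  have hj := j.isLt
  split_ifs with h
  · constructor
    · intro hA; rw [hA]; exact ⟨mem_univ _, subset_univ _⟩
    · rintro ⟨h1, h2⟩
      apply Finset.eq_univ_of_forall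
      intro m
      by_cases hm : m = a
      · rw [hm]; exact h1
      · apply h2
        have hm' : m.val ≠ a.val := fun h => hm (Fin.ext h)
        have hj' : j.val = if a.val = 0 then n else a.val - 1 := by rw [← h, hv]
        have := m.isLt
        rw [mem_arc]
        simp only [cd]
        split_ifs at * <;> omega
  · have hj' : j.val ≠ if a.val = 0 then n else a.val - 1 := by
      rw [← hv]; intro h'; exact h (Fin.ext h').symm
    have key : ∀ m, m ∈ arc (a - 1) j ↔ m = a ∨ m ∈ arc a j := by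
      intro m
      have := m.isLt
      rw [mem_arc, mem_arc, Fin.ext_iff]
      simp only [cd, hv]
      split_ifs at * <;> omega
    constructor
    · intro H
      exact ⟨H ((key a).2 (Or.inl rfl)), fun m hm => H ((key m).2 (Or.inr hm))⟩
    · rintro ⟨h1, h2⟩ m hm
      rcases (key m).1 hm with rfl | hm
      · exact h1
      · exact h2 hm

/-- the sum over the permutations at a sample point -/
theorem det_point (D : Finset (Fin n)) (ω : Pair n r) :
    ∑ π : Equiv.Perm (Fin (n + 1)), ((Equiv.Perm.sign π : ℤ) : ℝ) *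
      (if ω ∈ ⋂ i, (MD D : Fin (n + 1) → Fin (n + 1) → Set (Pair n r)) i (π i) then 1 else 0) =
    (if ∀ i ∈ D, i.castSucc ∈ ω.1 (ω.2 i) then (1 : ℝ) else 0) * (NN ω.2 ω.1).det := by
  rw [det_rows, Finset.mul_sum]
  apply Finset.sum_congr rfl
  intro π _
  have h1 : ∏ i, NN ω.2 ω.1 i (π i) =
      if ∀ i : Fin n, arc i.castSucc (π i.castSucc) ⊆ ω.1 (ω.2 i) then 1 else 0 := by
    rw [Fin.prod_univ_castSucc, Pool.Agent.X226.Pd.NN_last, mul_one]
    simp only [Pool.Agent.X226.Pd.NN_cast]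
    by_cases h : ∀ i : Fin n, arc i.castSucc (π i.castSucc) ⊆ ω.1 (ω.2 i)
    · rw [if_pos h]
      apply Finset.prod_eq_one
      intro i _
      rw [if_pos (h i)]
    · rw [if_neg h]
      push Not at h
      obtain ⟨i, hi⟩ := h
      apply Finset.prod_eq_zero (Finset.mem_univ i)
      rw [if_neg hi]
  have h2 : (if ω ∈ ⋂ i, (MD D : Fin (n + 1) → Fin (n + 1) → Set (Pair n r)) i (π i) then (1 : ℝ) else 0)
      = (if ∀ i ∈ D, i.castSucc ∈ ω.1 (ω.2 i) then (1 : ℝ) else 0) *
        (if ∀ i : Fin n, arc i.castSucc (π i.castSucc) ⊆ ω.1 (ω.2 i) then 1 else 0) := by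
    rw [Pool.Agent.X226.Pd.ind_mul]
    apply if_congr _ rfl rfl
    rw [Set.mem_iInter]
    have h3 : ∀ i : Fin n, ω ∈ (MD D : Fin (n + 1) → Fin (n + 1) → Set (Pair n r)) i.castSucc
        (π i.castSucc) ↔ ((i ∈ D → i.castSucc ∈ ω.1 (ω.2 i)) ∧
          arc i.castSucc (π i.castSucc) ⊆ ω.1 (ω.2 i)) := by
      intro i
      unfold MD
      rw [Fin.lastCases_castSucc]
      by_cases hi : i ∈ D
      · rw [if_pos hi]
        have := J_iff i.castSucc (π i.castSucc) (ω.1 (ω.2 i))
        unfold evJ evI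
        simp only [hi, forall_true_left]
        rw [← this]
        split_ifs <;> rfl
      · rw [if_neg hi]
        unfold evI
        simp only [hi, false_imp_iff, true_and]
        rfl
    constructor
    · intro H
      exact ⟨fun i hi => ((h3 i).1 (H i.castSucc)).1 hi, fun i => ((h3 i).1 (H i.castSucc)).2⟩
    · rintro ⟨H1, H2⟩ i
      refine Fin.lastCases ?_ (fun i => ?_) i
      · unfold MD
        rw [Fin.lastCases_last]
        exact Set.mem_univ _
      · exact (h3 i).2 ⟨fun hi => H1 i hi, H2 i⟩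
  rw [h1, h2]
  ring

theorem exists_surj (hr : 1 ≤ r) (hrn : r ≤ n) : ∃ f : Fin n → Fin r, Function.Surjective f := by
  refine ⟨fun i => if h : i.val < r then ⟨i.val, h⟩ else ⟨0, hr⟩, fun t => ?_⟩
  refine ⟨⟨t.val, lt_of_lt_of_le t.isLt hrn⟩, ?_⟩
  simp

/-- **The identity of Q1**, for all `k = n + 1`, all `1 ≤ r < k`, all `p` with `M_{p,r}` nonempty and
all `D ⊆ [k - 1]`:
`Pdet (M^D) = |M_{p,r}| / |S_{p,r}| * Pr (k ∉ S_1, D ⊆ S_1 | S ∈ M_{p,r})`. -/
theorem result (n r : ℕ) (hr : 1 ≤ r) (hrn : r < n + 1) (p : Fin (n + 1) → ℕ)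
    (hM : (Proper r p).Nonempty) (D : Finset (Fin n)) :
    Pdet p (MD D : Fin (n + 1) → Fin (n + 1) → Set (Pair n r)) =
      ((Proper r p).card / (Tuples r p).card : ℝ) *
        (((Proper r p).filter fun S =>
          Fin.last n ∉ S ⟨0, hr⟩ ∧ ∀ i ∈ D, i.castSucc ∈ S ⟨0, hr⟩).card / (Proper r p).card) := by
  set Sj : Finset (Fin n → Fin r) := univ.filter fun f => Function.Surjective f with hSj
  have hT : Tuples r p = univ.filter (fun S : Fin r → Finset (Fin (n + 1)) => dg S = p) := by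
    unfold Tuples
    apply Finset.filter_congr
    intro S _
    rw [funext_iff]
    rfl
  have hOm : Om r p = Tuples r p ×ˢ Sj := by
    ext ω
    simp [Om, hSj]
  have hTpos : (0 : ℝ) < (Tuples r p).card := by
    obtain ⟨S, hS⟩ := hM
    have : 0 < (Tuples r p).card := Finset.card_pos.2 ⟨S, (Finset.mem_filter.1 hS).1⟩
    exact_mod_cast this
  have hMpos : (0 : ℝ) < (Proper r p).card := by
    exact_mod_cast Finset.card_pos.2 hM
  have hSjpos : (0 : ℝ) < Sj.card := by
    obtain ⟨f, hf⟩ := exists_surj hr (by omega : r ≤ n)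
    have : 0 < Sj.card := Finset.card_pos.2 ⟨f, by rw [hSj, Finset.mem_filter]; exact ⟨mem_univ _, hf⟩⟩
    exact_mod_cast this
  have hOmc : ((Om r p).card : ℝ) = (Tuples r p).card * Sj.card := by
    rw [hOm, Finset.card_product]; push_cast; rfl
  set K : ℝ := (((Proper r p).filter fun S =>
    Fin.last n ∉ S ⟨0, hr⟩ ∧ ∀ i ∈ D, i.castSucc ∈ S ⟨0, hr⟩).card : ℝ) with hK
  have h1 : Pdet p (MD D : Fin (n + 1) → Fin (n + 1) → Set (Pair n r)) * (Om r p).card =
      Sj.card * K := by
    have hOm0 : ((Om r p).card : ℝ) ≠ 0 := by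
      rw [hOmc]; exact (mul_pos hTpos hSjpos).ne'
    unfold Pdet Pr
    rw [Finset.sum_mul]
    have e1 : ∀ π : Equiv.Perm (Fin (n + 1)), ((Equiv.Perm.sign π : ℤ) : ℝ) *
        ((((Om r p).filter fun ω => ω ∈ ⋂ i, (MD D : Fin (n + 1) → Fin (n + 1) → Set (Pair n r)) i (π i)).card : ℝ)
          / (Om r p).card) * (Om r p).card = ∑ ω ∈ Om r p, ((Equiv.Perm.sign π : ℤ) : ℝ) *
          (if ω ∈ ⋂ i, (MD D : Fin (n + 1) → Fin (n + 1) → Set (Pair n r)) i (π i) then 1 else 0) := by
      intro π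
      rw [mul_assoc, div_mul_cancel₀ _ hOm0, ← Finset.mul_sum, Finset.card_filter]
      push_cast
      rfl
    rw [Finset.sum_congr rfl (fun π _ => e1 π), Finset.sum_comm]
    rw [Finset.sum_congr rfl (fun ω _ => det_point D ω), hOm, Finset.sum_product_right]
    have e2 : ∀ f ∈ Sj, ∑ S ∈ Tuples r p,
        ((if ∀ i ∈ D, i.castSucc ∈ (S, f).1 ((S, f).2 i) then (1 : ℝ) else 0) * (NN (S, f).2 (S, f).1).det)
        = K := by
      intro f hf
      have hf' : Function.Surjective f := by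
        rw [hSj, Finset.mem_filter] at hf; exact hf.2
      have := fixed f hf' ⟨0, hr⟩ D p
      rw [hT]
      rw [this, hK]
      norm_cast
      congr 1
      unfold Proper
      rw [hT]
      ext S
      simp only [Finset.mem_filter]
      tauto
    rw [Finset.sum_congr rfl e2, Finset.sum_const, nsmul_eq_mul]
  rw [hOmc] at h1
  have h2 : Pdet p (MD D : Fin (n + 1) → Fin (n + 1) → Set (Pair n r)) * (Tuples r p).card = K := by
    have := hSjpos.ne'
    apply mul_right_cancel₀ this
    linear_combination h1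
  rw [eq_comm, div_mul_div_comm, mul_comm ((Proper r p).card : ℝ) K, mul_div_mul_right _ _ hMpos.ne',
    ← h2, mul_div_cancel_right₀ _ hTpos.ne']

end

end Pool.Agent.Results.MP_02f487_co.EventDeterminant
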